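import Pool.Agent.W180.OP.Many

set_option autoImplicit false

/-!
Several places over a number field.
-/

namespace Pool.Agent.W180.OP

open MvPolynomial Finset NumberField IsDedekindDomain Height

variable {K : Type} [Field K] [NumberField K]

/-- the places of `K` -/
abbrev Pl (K : Type) [Field K] [NumberField K] : Type :=
  InfinitePlace K ⊕ HeightOneSpectrum (𝓞 K)

/-- the absolute value of a place -/
noncomputable def av : Pl K → AbsoluteValue K ℝ
  | Sum.inl w => w.1
  | Sum.inr v => fv v

/-- the weight of a place -/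
noncomputable def wt : Pl K → ℝ
  | Sum.inl w => w.mult
  | Sum.inr _ => 1

lemma wt_nonneg (p : Pl K) : 0 ≤ wt p := by
  cases p with
  | inl w => exact Nat.cast_nonneg _
  | inr v => exact zero_le_one

/-- the Liouville inequality -/
theorem liou {n : ℕ} (G : MvPolynomial (Fin n) K) (e : ℕ) (hG : G.IsHomogeneous e) :
    ∃ C : ℝ, 0 ≤ C ∧ ∀ (S : Finset (Pl K)) (x : Fin n → K), x ≠ 0 → eval x G ≠ 0 →
      ∑ p ∈ S, wt p * max 0 (lam (av p) e G x) ≤ e * logHeight x + C := by
  obtain ⟨C, hC0, hC⟩ := liouville G e hG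
  refine ⟨C, hC0, fun S x hx hGx => ?_⟩
  have h := hC S.toLeft S.toRight x hx hGx
  rw [← Finset.toLeft_disjSum_toRight (u := S), Finset.sum_disjSum]
  have e1 : ∑ v ∈ S.toRight, wt (Sum.inr v : Pl K) * max 0 (lam (av (Sum.inr v : Pl K)) e G x) =
      ∑ v ∈ S.toRight, max 0 (lam (fv v) e G x) := Finset.sum_congr rfl fun v _ => one_mul _
  rw [e1]
  exact h

theorem global {q : ℕ} (hq : 0 < q) (F : Fin q → MvPolynomial (Fin 3) K) (d : Fin q → ℕ)
    (hd : ∀ i, 1 ≤ d i) (hF : ∀ i, (F i).IsHomogeneous (d i)) (hS : SNC F)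
    {ι : Type} [Fintype ι] (Y : ι → Fin 3 → K) (hY : ∀ k, Y k ≠ 0)
    (hcr : ∀ i j, i ≠ j → ∀ (L : Type) [Field L] [Algebra K L] (x : Fin 3 → L), x ≠ 0 →
      aeval x (F i) = 0 → aeval x (F j) = 0 →
      ∃ (k : ι) (c : L), x = c • fun b => algebraMap K L (Y k b))
    {κ : Type} [Fintype κ] (Mf : κ → MvPolynomial (Fin 3) K) (hMf : ∀ m, (Mf m).IsHomogeneous 1)
    (S : Finset (Pl K)) :
    ∃ B : ℝ, 0 ≤ B ∧ ∀ x : Fin 3 → K, x ≠ 0 → (∀ i, eval x (F i) ≠ 0) →
      (∀ k l, ∃ m, eval (Y k) (Mf m) = 0 ∧ eval (Y l) (Mf m) = 0 ∧ eval x (Mf m) ≠ 0) →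
      ∃ (i0 : Pl K → Fin q) (t : Pl K → ℝ),
        (∀ p, 0 ≤ t p) ∧ (∀ p ∈ S, ∀ j, j ≠ i0 p → lam (av p) (d j) (F j) x ≤ t p) ∧
        (∀ p ∈ S, wt p * ∑ i, lam (av p) (d i) (F i) x ≤
          wt p * max 0 (lam (av p) (d (i0 p)) (F (i0 p)) x) + wt p * t p + B) ∧
        ∑ p ∈ S, wt p * t p ≤ max 1 ((S.card : ℝ) / 2) * logHeight x + B := by
  classical
  set P : Finset (Fin 3 → K) := Finset.univ.image Y with hP
  have hcross : Crossings F P := by
    refine ⟨fun y hy => ?_, fun i j hij L _ _ x hx hi hj => ?_⟩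
    · obtain ⟨k, -, rfl⟩ := Finset.mem_image.1 hy
      exact hY k
    · obtain ⟨k, c, h⟩ := hcr i j hij L x hx hi hj
      exact ⟨Y k, Finset.mem_image_of_mem _ (Finset.mem_univ _), c, h⟩
  choose B hB0 hB using fun p : Pl K => local_place hq F d hd hF hS P hcross (av p)
  -- Liouville constants of the lines
  choose C hC0 hC using fun m : κ => liou (Mf m) 1 (hMf m)
  set C' : ℝ := ∑ m, C m with hC'
  have hC'0 : 0 ≤ C' := Finset.sum_nonneg fun m _ => hC0 m
  have hCle : ∀ m, C m ≤ C' := fun m =>
    Finset.single_le_sum (f := C) (fun m _ => hC0 m) (Finset.mem_univ m)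
  -- local constants
  set A : Pl K → ℝ := fun p => wt p * (B p + ∑ m, |Real.log (cs (av p) (Mf m))|) with hA
  have hA0 : ∀ p, 0 ≤ A p := fun p => mul_nonneg (wt_nonneg p)
    (add_nonneg (hB0 p) (Finset.sum_nonneg fun _ _ => abs_nonneg _))
  have hAle : ∀ p m, wt p * (B p + |Real.log (cs (av p) (Mf m))|) ≤ A p := by
    intro p m
    refine mul_le_mul_of_nonneg_left ?_ (wt_nonneg p)
    have : |Real.log (cs (av p) (Mf m))| ≤ ∑ m, |Real.log (cs (av p) (Mf m))| :=
      Finset.single_le_sum (f := fun m => |Real.log (cs (av p) (Mf m))|)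
        (fun _ _ => abs_nonneg _) (Finset.mem_univ m)
    linarith
  have hAB : ∀ p, wt p * B p ≤ A p := fun p => by
    refine mul_le_mul_of_nonneg_left ?_ (wt_nonneg p)
    have : 0 ≤ ∑ m, |Real.log (cs (av p) (Mf m))| := Finset.sum_nonneg fun _ _ => abs_nonneg _
    linarith
  set E : ℝ := ∑ p ∈ S, A p with hE
  have hE0 : 0 ≤ E := Finset.sum_nonneg fun p _ => hA0 p
  have hAE : ∀ p ∈ S, A p ≤ E := fun p hp => Finset.single_le_sum (fun p _ => hA0 p) hp
  set s : ℝ := (S.card : ℝ) with hs
  have hs0 : 0 ≤ s := Nat.cast_nonneg _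
  set D : ℝ := (s + 1) * (2 * E + C') with hD
  have hD0 : 0 ≤ D := by positivity
  have hDE : E ≤ D := by
    rw [hD]; nlinarith [mul_nonneg hs0 (by positivity : (0 : ℝ) ≤ 2 * E + C')]
  refine ⟨D, hD0, fun x hx hFx hMx => ?_⟩
  choose i0 t ht0 htj hsum hty using fun p : Pl K => hB p x hx hFx
  have hh0 : 0 ≤ logHeight x := logHeight_nonneg x
  refine ⟨i0, t, ht0, fun p _ => htj p, fun p hp => ?_, ?_⟩
  · have h1 := mul_le_mul_of_nonneg_left (hsum p) (wt_nonneg p)
    rw [mul_add, mul_add] at h1
    have := hAB p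
    have := hAE p hp
    linarith
  · -- the second components
    have hone : ∀ p ∈ S, wt p * t p ≤ A p ∨ ∃ k : ι, ∀ m : κ, eval (Y k) (Mf m) = 0 →
        eval x (Mf m) ≠ 0 → wt p * t p ≤ wt p * max 0 (lam (av p) 1 (Mf m) x) + A p := by
      intro p hp
      rcases hty p with h | ⟨y, hy, h⟩
      · left
        have h1 := mul_le_mul_of_nonneg_left h (wt_nonneg p)
        have := hAB p
        linarith
      · right
        obtain ⟨k, -, rfl⟩ := Finset.mem_image.1 hy
        refine ⟨k, fun m hm hxm => ?_⟩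
        have h1 := h (Mf m) (hMf m) hm hxm
        have h2 : t p ≤ max 0 (lam (av p) 1 (Mf m) x) + (B p + |Real.log (cs (av p) (Mf m))|) := by
          have := le_max_right 0 (lam (av p) 1 (Mf m) x)
          linarith
        have h3 := mul_le_mul_of_nonneg_left h2 (wt_nonneg p)
        rw [mul_add] at h3
        have := hAle p m
        linarith
    -- one place
    have hsingle : ∀ p ∈ S, wt p * t p ≤ logHeight x + (E + C') := by
      intro p hp
      have g5 := hAE p hp
      rcases hone p hp with h | ⟨k, hk⟩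
      · linarith
      · obtain ⟨m, hm1, -, hm3⟩ := hMx k k
        have g1 := hk m hm1 hm3
        have g3 := hC m {p} x hx hm3
        rw [Finset.sum_singleton] at g3
        have g4 := hCle m
        push_cast at g3
        linarith
    -- two places
    have htwo : ∀ p ∈ S, ∀ p' ∈ S, p ≠ p' → wt p * t p + wt p' * t p' ≤
        logHeight x + (2 * E + C') := by
      intro p hp p' hp' hpp
      have g5 := hAE p hp
      have g6 := hAE p' hp'
      have s1 := hsingle p hp
      have s2 := hsingle p' hp'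
      rcases hone p hp with h | ⟨k, hk⟩
      · linarith
      · rcases hone p' hp' with h' | ⟨k', hk'⟩
        · linarith
        · obtain ⟨m, hm1, hm2, hm3⟩ := hMx k k'
          have g1 := hk m hm1 hm3
          have g2 := hk' m hm2 hm3
          have g3 := hC m {p, p'} x hx hm3
          rw [Finset.sum_pair hpp] at g3
          have g4 := hCle m
          push_cast at g3
          linarith
    -- sum up
    rcases Nat.lt_or_ge S.card 2 with hc | hc
    · -- at most one place
      have hc' : S.card = 0 ∨ S.card = 1 := by omega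
      have hm : 1 * logHeight x ≤ max 1 (s / 2) * logHeight x :=
        mul_le_mul_of_nonneg_right (le_max_left _ _) hh0
      have hD1 : 2 * E + C' ≤ D := by
        rw [hD]; nlinarith [mul_nonneg hs0 (by positivity : (0 : ℝ) ≤ 2 * E + C')]
      rcases hc' with h | h
      · rw [Finset.card_eq_zero] at h
        rw [h, Finset.sum_empty]
        positivity
      · obtain ⟨p, hp⟩ := Finset.card_eq_one.1 h
        have := hsingle p (by rw [hp]; exact Finset.mem_singleton_self _)
        rw [hp, Finset.sum_singleton]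
        linarith
    · -- sum over pairs
      have hs2 : (2 : ℝ) ≤ s := by rw [hs]; exact_mod_cast hc
      set τ : Pl K → ℝ := fun p => wt p * t p with hτ
      set T := ∑ p ∈ S, τ p with hT
      have e1 : ∑ p ∈ S, ∑ p' ∈ S.erase p, (τ p + τ p') = 2 * (s - 1) * T := by
        have e2 : ∀ p ∈ S, ∑ p' ∈ S.erase p, (τ p + τ p') = (s - 2) * τ p + T := by
          intro p hp
          have e0 : τ p + ∑ p' ∈ S.erase p, τ p' = T := Finset.add_sum_erase S τ hp
          rw [Finset.sum_add_distrib, Finset.sum_const, Finset.card_erase_of_mem hp, nsmul_eq_mul]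
          have h5 : ((S.card - 1 : ℕ) : ℝ) = s - 1 := by
            rw [Nat.cast_sub (by omega)]; simp [hs]
          rw [h5]
          linear_combination e0
        rw [Finset.sum_congr rfl e2, Finset.sum_add_distrib, ← Finset.mul_sum, Finset.sum_const,
          nsmul_eq_mul]
        rw [← hT]
        ring
      have e3 : ∑ p ∈ S, ∑ p' ∈ S.erase p, (τ p + τ p') ≤
          ∑ p ∈ S, ∑ _p' ∈ S.erase p, (logHeight x + (2 * E + C')) :=
        Finset.sum_le_sum fun p hp => Finset.sum_le_sum fun p' hp' =>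
          htwo p hp p' (Finset.mem_of_mem_erase hp') (Finset.ne_of_mem_erase hp').symm
      have e4 : ∑ p ∈ S, ∑ _p' ∈ S.erase p, (logHeight x + (2 * E + C')) =
          s * (s - 1) * (logHeight x + (2 * E + C')) := by
        have e5 : ∀ p ∈ S, ∑ _p' ∈ S.erase p, (logHeight x + (2 * E + C')) =
            (s - 1) * (logHeight x + (2 * E + C')) := by
          intro p hp
          rw [Finset.sum_const, Finset.card_erase_of_mem hp, nsmul_eq_mul]
          congr 1
          rw [Nat.cast_sub (by omega)]; simp [hs]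
        rw [Finset.sum_congr rfl e5, Finset.sum_const, nsmul_eq_mul]
        ring
      rw [e1, e4] at e3
      have e6 : 2 * T ≤ s * (logHeight x + (2 * E + C')) := by
        have hs1 : 0 < s - 1 := by linarith
        have e7 : (s - 1) * (2 * T) ≤ (s - 1) * (s * (logHeight x + (2 * E + C'))) := by
          linarith [e3]
        exact le_of_mul_le_mul_left e7 hs1
      have hm : s / 2 * logHeight x ≤ max 1 (s / 2) * logHeight x :=
        mul_le_mul_of_nonneg_right (le_max_right _ _) hh0
      have e8 : s * (2 * E + C') / 2 ≤ D := by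
        rw [hD]
        nlinarith [mul_nonneg hs0 (by positivity : (0 : ℝ) ≤ 2 * E + C')]
      linarith

end Pool.Agent.W180.OP
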