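import Pool.Agent.W180.OP.Fin1

set_option autoImplicit false

/-!
Points on a line: three disjoint sets, two places.
-/

namespace Pool.Agent.W180.OP

open MvPolynomial Finset NumberField IsDedekindDomain Height

section bin

variable {K : Type} [Field K]

lemma X_dvd_of (f : MvPolynomial (Fin 2) K) {d : ℕ} (hf : f.IsHomogeneous d) (i j : Fin 2)
    (hij : i ≠ j) (h0 : eval (Pi.single j 1) f = 0) : (X i : MvPolynomial (Fin 2) K) ∣ f := by
  classical
  have hcoef : coeff (Finsupp.single j d) f = 0 := by
    rw [eval_eq] at h0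
    have h1 : ∀ m ∈ f.support, coeff m f * ∏ k ∈ m.support, (Pi.single j (1 : K) : Fin 2 → K) k ^ m k =
        if m = Finsupp.single j d then coeff m f else 0 := by
      intro m hm
      have hdeg : m i + m j = d := by
        have h1 : m.degree = d := by
          have := hf (mem_support_iff.1 hm)
          exact (DFunLike.congr_fun (Finsupp.degree_eq_weight_one (σ := Fin 2) (R := ℕ)) m).trans
            this
        rw [← h1, Finsupp.degree_eq_sum, Fin.sum_univ_two]
        fin_cases i <;> fin_cases j <;> simp_all [add_comm]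
      have hall : ∀ k : Fin 2, k = i ∨ k = j := by
        intro k
        fin_cases i <;> fin_cases j <;> fin_cases k <;> simp_all
      by_cases hmi : m i = 0
      · have hm' : m = Finsupp.single j d := by
          ext k
          rcases hall k with rfl | rfl
          · rw [Finsupp.single_apply, if_neg hij.symm, hmi]
          · rw [Finsupp.single_apply, if_pos rfl]; omega
        rw [if_pos hm']
        have : ∏ k ∈ m.support, (Pi.single j (1 : K) : Fin 2 → K) k ^ m k = 1 := by
          refine Finset.prod_eq_one fun k hk => ?_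
          rcases hall k with rfl | rfl
          · exact absurd hmi (Finsupp.mem_support_iff.1 hk)
          · simp
        rw [this, mul_one]
      · have hm' : m ≠ Finsupp.single j d := by
          intro h
          apply hmi
          rw [h, Finsupp.single_apply, if_neg hij.symm]
        rw [if_neg hm']
        have : ∏ k ∈ m.support, (Pi.single j (1 : K) : Fin 2 → K) k ^ m k = 0 := by
          refine Finset.prod_eq_zero (Finsupp.mem_support_iff.2 hmi) ?_
          rw [Pi.single_apply, if_neg hij, zero_pow hmi]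
        rw [this, mul_zero]
    rw [Finset.sum_congr rfl h1, Finset.sum_ite_eq'] at h0
    by_contra hne
    rw [if_pos (mem_support_iff.2 hne)] at h0
    exact hne h0
  rw [f.as_sum]
  refine Finset.dvd_sum fun m hm => ?_
  have hmi : m i ≠ 0 := by
    intro hmi
    have hall : ∀ k : Fin 2, k = i ∨ k = j := by
      intro k
      fin_cases i <;> fin_cases j <;> fin_cases k <;> simp_all
    have hdeg : m i + m j = d := by
      have h1 : m.degree = d := by
        have := hf (mem_support_iff.1 hm)
        exact (DFunLike.congr_fun (Finsupp.degree_eq_weight_one (σ := Fin 2) (R := ℕ)) m).trans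
          this
      rw [← h1, Finsupp.degree_eq_sum, Fin.sum_univ_two]
      fin_cases i <;> fin_cases j <;> simp_all [add_comm]
    have hm' : m = Finsupp.single j d := by
      ext k
      rcases hall k with rfl | rfl
      · rw [Finsupp.single_apply, if_neg hij.symm, hmi]
      · rw [Finsupp.single_apply, if_pos rfl]; omega
    rw [hm'] at hm
    exact (mem_support_iff.1 hm) hcoef
  have h2 : m = Finsupp.single i 1 + (m - Finsupp.single i 1) := by
    rw [add_tsub_cancel_of_le]
    rw [Finsupp.single_le_iff]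
    exact Nat.one_le_iff_ne_zero.2 hmi
  have h3 : monomial m (coeff m f) = X i * monomial (m - Finsupp.single i 1) (coeff m f) := by
    rw [X, monomial_mul, one_mul, ← h2]
  rw [h3]
  exact Dvd.intro _ rfl

lemma hom_of_X_mul {n : ℕ} (g : MvPolynomial (Fin n) K) {d : ℕ} (i : Fin n)
    (h : (X i * g).IsHomogeneous (d + 1)) : g.IsHomogeneous d := by
  have h1 := homComp_mul g (X i) d 1 (isHomogeneous_X K i)
  rw [mul_comm g, homogeneousComponent_eq_self h, mul_comm] at h1
  have h2 : g = homogeneousComponent d g := mul_right_cancel₀ (X_ne_zero i) h1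
  rw [h2]
  exact homogeneousComponent_isHomogeneous _ _

/-- a binary form: the factors `X 0`, `X 1` and the rest -/
theorem factor2 (d : ℕ) : ∀ f : MvPolynomial (Fin 2) K, f ≠ 0 → f.IsHomogeneous d →
    ∃ (a b e : ℕ) (r : MvPolynomial (Fin 2) K), r.IsHomogeneous e ∧ a + b + e = d ∧
      f = X 0 ^ a * X 1 ^ b * r ∧ eval (Pi.single 1 1) r ≠ 0 ∧ eval (Pi.single 0 1) r ≠ 0 := by
  induction d with
  | zero =>
    intro f hf0 hf
    obtain ⟨c, hc⟩ : ∃ c, f = C c := by
      have := ((totalDegree_zero_iff_isHomogeneous _).2 hf)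
      exact ⟨_, (totalDegree_eq_zero_iff_eq_C.1 this)⟩
    have hc0 : c ≠ 0 := by
      rintro rfl
      exact hf0 (by rw [hc, C_0])
    refine ⟨0, 0, 0, f, hf, rfl, by simp, ?_, ?_⟩
    · rw [hc, eval_C]; exact hc0
    · rw [hc, eval_C]; exact hc0
  | succ d ih =>
    intro f hf0 hf
    by_cases h1 : eval (Pi.single 1 1) f = 0
    · obtain ⟨g, hg⟩ := X_dvd_of f hf 0 1 (by decide) h1
      have hg0 : g ≠ 0 := by
        rintro rfl
        exact hf0 (by rw [hg, mul_zero])
      obtain ⟨a, b, e, r, hr, habe, hgr, h2, h3⟩ := ih g hg0 (hom_of_X_mul g 0 (hg ▸ hf))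
      refine ⟨a + 1, b, e, r, hr, by omega, ?_, h2, h3⟩
      rw [hg, hgr]
      ring
    · by_cases h2 : eval (Pi.single 0 1) f = 0
      · obtain ⟨g, hg⟩ := X_dvd_of f hf 1 0 (by decide) h2
        have hg0 : g ≠ 0 := by
          rintro rfl
          exact hf0 (by rw [hg, mul_zero])
        obtain ⟨a, b, e, r, hr, habe, hgr, h2, h3⟩ := ih g hg0 (hom_of_X_mul g 1 (hg ▸ hf))
        refine ⟨a, b + 1, e, r, hr, by omega, ?_, h2, h3⟩
        rw [hg, hgr]
        ring
      · exact ⟨0, 0, d + 1, f, hf, by omega, by simp, h1, h2⟩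

end bin

/-- three forms on the line without common zeros, two places -/
theorem three_two {L : Type} [Field L] [NumberField L] {n : ℕ} (hn : 0 < n) (S : Finset (Pl L))
    (hS : S.card ≤ 2) (A : Fin 3 → MvPolynomial (Fin n) L) (e : Fin 3 → ℕ) (he : ∀ k, 1 ≤ e k)
    (hA : ∀ k, (A k).IsHomogeneous (e k))
    (hdis : ∀ k k', k ≠ k' → ∀ (L' : Type) [Field L'] [Algebra L L'] (x : Fin n → L'),
      aeval x (A k) = 0 → aeval x (A k') = 0 → x = 0) (C : ℝ) :
    ∃ B : ℝ, ∀ z : Fin n → L, z ≠ 0 → (∀ k, eval z (A k) ≠ 0) →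
      (∀ k, (e k : ℝ) * logHeight z - C ≤ ∑ p ∈ S, wt p * lam (av p) (e k) (A k) z) →
      logHeight z ≤ B := by
  classical
  have hmin : ∀ (p : Pl L) (k k' : Fin 3), ∃ B : ℝ, k ≠ k' → ∀ z : Fin n → L, z ≠ 0 →
      (∀ k, eval z (A k) ≠ 0) →
      min (lam (av p) (e k) (A k) z) (lam (av p) (e k') (A k') z) ≤ B := by
    intro p k k'
    by_cases hk : k = k'
    · exact ⟨0, fun h => absurd hk h⟩
    · obtain ⟨B, hB⟩ := min_lam hn (![A k, A k'] : Fin 2 → MvPolynomial (Fin n) L) ![e k, e k'] (by
        intro l
        fin_cases l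
        · exact hA k
        · exact hA k') (by
        intro L' _ _ x hx
        exact hdis k k' hk L' x (hx 0) (hx 1)) (av p)
      refine ⟨B, fun _ z hz hAz => ?_⟩
      obtain ⟨l, hl⟩ := hB z hz (by
        intro l
        fin_cases l
        · exact hAz k
        · exact hAz k')
      fin_cases l
      · exact (min_le_left _ _).trans hl
      · exact (min_le_right _ _).trans hl
  choose B hB using hmin
  set T : Pl L → ℝ := fun p => ∑ k, ∑ k', |B p k k'| with hT
  have hT0 : ∀ p, 0 ≤ T p := fun p => Finset.sum_nonneg fun _ _ => Finset.sum_nonneg fun _ _ =>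
    abs_nonneg _
  have hBT : ∀ p k k', B p k k' ≤ T p := by
    intro p k k'
    refine (le_abs_self _).trans ?_
    refine (Finset.single_le_sum (f := fun k' => |B p k k'|) (fun _ _ => abs_nonneg _)
      (Finset.mem_univ k')).trans ?_
    exact Finset.single_le_sum (f := fun k => ∑ k', |B p k k'|)
      (fun _ _ => Finset.sum_nonneg fun _ _ => abs_nonneg _) (Finset.mem_univ k)
  refine ⟨∑ p ∈ S, wt p * T p + C, fun z hz hAz hint => ?_⟩
  have hmax : ∀ p : Pl L, ∃ k : Fin 3, ∀ k', k' ≠ k → lam (av p) (e k') (A k') z ≤ T p := by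
    intro p
    obtain ⟨k, -, hk⟩ := Finset.exists_max_image Finset.univ
      (fun k => lam (av p) (e k) (A k) z) Finset.univ_nonempty
    refine ⟨k, fun k' hk' => ?_⟩
    have h1 := hB p k k' hk'.symm z hz hAz
    rw [min_eq_right (hk k' (Finset.mem_univ _))] at h1
    exact h1.trans (hBT p k k')
  choose kp hkp using hmax
  obtain ⟨k, hk⟩ : ∃ k, k ∉ S.image kp := by
    by_contra hcon
    push Not at hcon
    have h1 : (Finset.univ : Finset (Fin 3)) ⊆ S.image kp := fun k _ => hcon k
    have h2 := Finset.card_le_card h1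
    have h3 : (S.image kp).card ≤ S.card := Finset.card_image_le
    simp at h2
    omega
  have h1 := hint k
  have h2 : ∑ p ∈ S, wt p * lam (av p) (e k) (A k) z ≤ ∑ p ∈ S, wt p * T p := by
    refine Finset.sum_le_sum fun p hp => mul_le_mul_of_nonneg_left (hkp p k ?_) (wt_nonneg p)
    rintro rfl
    exact hk (Finset.mem_image_of_mem _ hp)
  have h3 : logHeight z ≤ (e k : ℝ) * logHeight z := by
    have h4 : (1 : ℝ) ≤ e k := by exact_mod_cast he k
    have := logHeight_nonneg z
    nlinarith
  linarith

end Pool.Agent.W180.OP
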