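import Pool.Agent.W180.OP.Base

set_option autoImplicit false

/-!
The Liouville inequality over a number field, for any finite set of places.
-/

namespace Pool.Agent.W180.OP

open MvPolynomial Finset NumberField IsDedekindDomain Height

variable {K : Type} [Field K] [NumberField K]

/-- the absolute value at the prime `v` -/
noncomputable def fv (v : HeightOneSpectrum (𝓞 K)) : AbsoluteValue K ℝ := (FinitePlace.mk v).1

lemma fv_apply (v : HeightOneSpectrum (𝓞 K)) (x : K) : fv v x = FinitePlace.mk v x := rfl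

lemma fv_support_finite {x : K} (hx : x ≠ 0) :
    {v : HeightOneSpectrum (𝓞 K) | fv v x ≠ 1}.Finite := by
  have h := FinitePlace.hasFiniteMulSupport (K := K) hx
  have h2 : {v : HeightOneSpectrum (𝓞 K) | fv v x ≠ 1} =
      (fun v => FinitePlace.mk v) ⁻¹' (Function.mulSupport (fun w : FinitePlace K => w x)) := by
    ext v
    simp [Function.mulSupport, fv_apply]
  rw [h2]
  exact Set.Finite.preimage (fun a _ b _ hab => FinitePlace.mk_eq_iff.mp hab) h

/-- a vector with a coordinate equal to `1`: partial sums of the local terms of the height -/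
lemma partial_le {m : ℕ} (y : Fin m → K) (j : Fin m) (hj : y j = 1)
    (S1 : Finset (InfinitePlace K)) (S2 : Finset (HeightOneSpectrum (𝓞 K))) :
    ∑ w ∈ S1, (w.mult : ℝ) * Real.log (nrm w.1 y) + ∑ v ∈ S2, Real.log (nrm (fv v) y) ≤
      logHeight y := by
  classical
  have hy : y ≠ 0 := by
    intro h
    have := congrFun h j
    rw [hj] at this
    exact one_ne_zero this
  have hge : ∀ f : AbsoluteValue K ℝ, 1 ≤ nrm f y := fun f => by
    have := le_nrm f y j
    rwa [hj, map_one] at this
  have hlog : ∀ f : AbsoluteValue K ℝ, 0 ≤ Real.log (nrm f y) := fun f => Real.log_nonneg (hge f)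
  set g : HeightOneSpectrum (𝓞 K) → ℝ := fun v => nrm (fv v) y with hg
  have hsupp : (Function.mulSupport g).Finite := by
    have h1 : (⋃ i : {i : Fin m // y i ≠ 0}, {v : HeightOneSpectrum (𝓞 K) | fv v (y i) ≠ 1}).Finite :=
      Set.finite_iUnion fun i => fv_support_finite i.2
    refine h1.subset fun v hv => ?_
    by_contra hc
    apply hv
    simp only [Set.mem_iUnion, not_exists, Set.mem_ofPred_eq, not_not] at hc
    have hm : 0 < m := Fin.pos j
    obtain ⟨i, hi⟩ := exists_nrm (fv v) hm y
    show nrm (fv v) y = 1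
    by_cases h0 : y i = 0
    · rw [h0, map_zero] at hi
      have := hge (fv v)
      linarith
    · rw [← hi]
      exact hc ⟨i, h0⟩
  have e : ∏ᶠ v : FinitePlace K, ⨆ i, v (y i) = ∏ᶠ v : HeightOneSpectrum (𝓞 K), g v := by
    rw [← finprod_comp_equiv (FinitePlace.equivHeightOneSpectrum (K := K)).symm]
    rfl
  have e2 : ∏ᶠ v : HeightOneSpectrum (𝓞 K), g v = ∏ v ∈ hsupp.toFinset ∪ S2, g v := by
    refine finprod_eq_prod_of_mulSupport_subset _ fun v hv => ?_
    rw [Finset.coe_union, Set.Finite.coe_toFinset]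
    exact Or.inl hv
  have hw : ∀ w : InfinitePlace K, (⨆ i, w (y i)) = nrm w.1 y := fun w => rfl
  have h4 : 0 < ∏ w : InfinitePlace K, (⨆ i, w (y i)) ^ w.mult :=
    prod_pos fun w _ => pow_pos (by rw [hw]; linarith [hge w.1]) _
  have h5 : 0 < ∏ v ∈ hsupp.toFinset ∪ S2, g v := prod_pos fun v _ => by
    have := hge (fv v); show 0 < nrm (fv v) y; linarith
  rw [logHeight_eq_log_mulHeight, NumberField.mulHeight_eq hy, e, e2,
    Real.log_mul h4.ne' h5.ne', Real.log_prod fun w _ => (pow_pos (by rw [hw]; linarith [hge w.1]) _).ne',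
    Real.log_prod fun v _ => (by have := hge (fv v); show nrm (fv v) y ≠ 0; linarith)]
  refine add_le_add ?_ ?_
  · refine (Finset.sum_le_sum_of_subset_of_nonneg (Finset.subset_univ S1) fun w _ _ =>
      mul_nonneg (Nat.cast_nonneg _) (hlog w.1)).trans (le_of_eq ?_)
    exact Finset.sum_congr rfl fun w _ => by rw [Real.log_pow, hw]
  · exact Finset.sum_le_sum_of_subset_of_nonneg Finset.subset_union_right fun v _ _ => hlog (fv v)

/-- the Liouville inequality -/
theorem liouville {n : ℕ} (G : MvPolynomial (Fin n) K) (e : ℕ)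
    (hG : G.IsHomogeneous e) : ∃ C : ℝ, 0 ≤ C ∧ ∀ (S1 : Finset (InfinitePlace K))
      (S2 : Finset (HeightOneSpectrum (𝓞 K))) (x : Fin n → K), x ≠ 0 → eval x G ≠ 0 →
      ∑ w ∈ S1, (w.mult : ℝ) * max 0 (lam w.1 e G x) + ∑ v ∈ S2, max 0 (lam (fv v) e G x) ≤
        e * logHeight x + C := by
  classical
  set p : Fin (n + 1) → MvPolynomial (Fin n) K := Fin.cons G fun j => X j ^ e with hp
  have hph : ∀ i, (p i).IsHomogeneous e := by
    intro i
    refine Fin.cases ?_ (fun j => ?_) i
    · simpa [hp] using hG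
    · simpa [hp] using (isHomogeneous_X K j).pow e
  obtain ⟨C, hC⟩ := logHeight_eval_le' hph
  refine ⟨max C 0, le_max_right _ _, fun S1 S2 x hx hGx => ?_⟩
  set y : Fin (n + 1) → K := (eval x G)⁻¹ • fun j => eval x (p j) with hy
  have hy0 : y 0 = 1 := by
    simp [hy, hp, hGx]
  have h1 := partial_le y 0 hy0 S1 S2
  have h2 : logHeight y = logHeight fun j => eval x (p j) :=
    logHeight_smul_eq_logHeight _ (inv_ne_zero hGx)
  have h3 := hC x
  have key : ∀ f : AbsoluteValue K ℝ, max 0 (lam f e G x) ≤ Real.log (nrm f y) := by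
    intro f
    have hge : 1 ≤ nrm f y := by
      have := le_nrm f y 0
      rwa [hy0, map_one] at this
    refine max_le (Real.log_nonneg hge) ?_
    have hn : 0 < n := by
      obtain ⟨j, _⟩ := Function.ne_iff.1 hx
      exact Fin.pos j
    obtain ⟨j, hj⟩ := exists_nrm f hn x
    have h4 : f (y j.succ) = nrm f x ^ e / f (eval x G) := by
      simp only [hy, hp, Pi.smul_apply, Fin.cons_succ, smul_eq_mul, map_mul, map_inv₀, map_pow,
        eval_X, hj]
      ring
    have h5 := le_nrm f y j.succ
    rw [h4] at h5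
    exact Real.log_le_log (div_pos (pow_pos (nrm_pos f hx) _) (f.pos_iff.2 hGx)) h5
  calc _ ≤ ∑ w ∈ S1, (w.mult : ℝ) * Real.log (nrm w.1 y) + ∑ v ∈ S2, Real.log (nrm (fv v) y) :=
        add_le_add (sum_le_sum fun w _ => mul_le_mul_of_nonneg_left (key w.1) (Nat.cast_nonneg _))
          (sum_le_sum fun v _ => key (fv v))
    _ ≤ logHeight y := h1
    _ ≤ C + e * logHeight x := by rw [h2]; exact h3
    _ ≤ _ := by linarith [le_max_left C 0]

end Pool.Agent.W180.OP
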