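import Pool.Agent.W180.OP.Snc

set_option autoImplicit false

/-!
Vojta's inequality at one place.
-/

namespace Pool.Agent.W180.OP

open MvPolynomial Finset

variable {K : Type} [Field K]

/-- no common point over the completion -/
def Apart (f : AbsoluteValue K ℝ) (d e : ℕ) (F G : MvPolynomial (Fin 3) K) : Prop :=
  ∃ c : ℝ, 0 < c ∧ ∀ x : Fin 3 → K, x ≠ 0 →
    c ≤ max (f (eval x F) / nrm f x ^ d) (f (eval x G) / nrm f x ^ e)

lemma Apart.min_lam {f : AbsoluteValue K ℝ} {d e : ℕ} {F G : MvPolynomial (Fin 3) K}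
    (h : Apart f d e F G) : ∃ C : ℝ, ∀ x : Fin 3 → K, x ≠ 0 → eval x F ≠ 0 → eval x G ≠ 0 →
      min (lam f d F x) (lam f e G x) ≤ C := by
  obtain ⟨c, hc, h⟩ := h
  refine ⟨-Real.log c, fun x hx hF hG => ?_⟩
  have key : ∀ (d : ℕ) (F : MvPolynomial (Fin 3) K), eval x F ≠ 0 →
      c ≤ f (eval x F) / nrm f x ^ d → lam f d F x ≤ -Real.log c := by
    intro d F hF h1
    have h0 : 0 < nrm f x ^ d := pow_pos (nrm_pos f hx) d
    have h2 : lam f d F x = -Real.log (f (eval x F) / nrm f x ^ d) := by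
      unfold lam
      rw [← Real.log_inv, inv_div]
    rw [h2]
    exact neg_le_neg (Real.log_le_log hc h1)
  rcases le_max_iff.1 (h x hx) with h1 | h1
  · exact (min_le_left _ _).trans (key d F hF h1)
  · exact (min_le_right _ _).trans (key e G hG h1)

/-- local analysis of a pencil with a degenerate member -/
lemma pencil_lam {q : ℕ} {F : Fin q → MvPolynomial (Fin 3) K} (hS : SNC F) {i j : Fin q}
    (hij : i ≠ j) (hFi : (F i).IsHomogeneous 2) (a b : K)
    (M M' : MvPolynomial (Fin 3) K) (hM : M.IsHomogeneous 1) (hM' : M'.IsHomogeneous 1)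
    (hMM : M * M' ≠ 0) (hab : C a * F i + C b * F j = M * M') (f : AbsoluteValue K ℝ) :
    ∃ B : ℝ, ∀ x : Fin 3 → K, x ≠ 0 → eval x (F i) ≠ 0 → eval x (F j) ≠ 0 → eval x M ≠ 0 →
      eval x M' ≠ 0 → min (lam f 2 (F i) x) (lam f 2 (F j) x) ≤
        max (max 0 (lam f 1 M x)) (max 0 (lam f 1 M' x)) + B := by
  obtain ⟨B1, hB1⟩ := min_lam (by norm_num : 0 < 3) (![M, M', F i] : Fin 3 → MvPolynomial (Fin 3) K)
    ![1, 1, 2] (by
      intro k
      fin_cases k
      · exact hM
      · exact hM'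
      · exact hFi) (by
      intro L _ _ x hx
      exact no_vertex hS hij a b M M' hMM hab L x (hx 0) (hx 1) (hx 2)) f
  set A : ℝ := f a + f b + 1 with hA
  have hA0 : 0 < A := by have := f.nonneg a; have := f.nonneg b; linarith
  refine ⟨|B1| + |Real.log A|, fun x hx hFi0 hFj0 hM0 hM0' => ?_⟩
  have hn := nrm_pos f hx
  have hfi := f.pos_iff.2 hFi0
  have hfj := f.pos_iff.2 hFj0
  set t := min (lam f 2 (F i) x) (lam f 2 (F j) x) with ht
  -- the product
  have h1 : t ≤ lam f 1 M x + lam f 1 M' x + Real.log A := by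
    have e1 : eval x M * eval x M' = a * eval x (F i) + b * eval x (F j) := by
      rw [← map_mul, ← hab]
      simp
    have e2 : f (eval x M) * f (eval x M') ≤ f a * f (eval x (F i)) + f b * f (eval x (F j)) := by
      rw [← map_mul, e1]
      refine (f.add_le _ _).trans ?_
      rw [map_mul, map_mul]
    have e3 : ∀ k : Fin q, eval x (F k) ≠ 0 → t ≤ lam f 2 (F k) x →
        f (eval x (F k)) ≤ Real.exp (-t) * nrm f x ^ 2 := by
      intro k hk h
      have h0 := f.pos_iff.2 hk
      rw [lam_eq f _ _ hx hk] at h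
      have h2 : Real.log (f (eval x (F k))) ≤ -t + (2 : ℕ) * Real.log (nrm f x) := by linarith
      rw [← Real.log_pow] at h2
      have h3 := (Real.log_le_iff_le_exp h0).1 h2
      rwa [Real.exp_add, Real.exp_log (pow_pos hn 2)] at h3
    have e4 : f (eval x M) * f (eval x M') ≤ A * (Real.exp (-t) * nrm f x ^ 2) := by
      have g1 := e3 i hFi0 (min_le_left _ _)
      have g2 := e3 j hFj0 (min_le_right _ _)
      have g3 : 0 ≤ Real.exp (-t) * nrm f x ^ 2 := by positivity
      have g4 := mul_le_mul_of_nonneg_left g1 (f.nonneg a)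
      have g5 := mul_le_mul_of_nonneg_left g2 (f.nonneg b)
      have g6 : A * (Real.exp (-t) * nrm f x ^ 2) = f a * (Real.exp (-t) * nrm f x ^ 2) +
        f b * (Real.exp (-t) * nrm f x ^ 2) + Real.exp (-t) * nrm f x ^ 2 := by rw [hA]; ring
      linarith
    have hm := f.pos_iff.2 hM0
    have hm' := f.pos_iff.2 hM0'
    have e5 := Real.log_le_log (mul_pos hm hm') e4
    rw [Real.log_mul hm.ne' hm'.ne', Real.log_mul hA0.ne' (by positivity),
      Real.log_mul (Real.exp_pos _).ne' (by positivity), Real.log_exp, Real.log_pow] at e5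
    rw [lam_eq f _ _ hx hM0, lam_eq f _ _ hx hM0']
    push_cast at e5 ⊢
    linarith
  obtain ⟨k, hk⟩ := hB1 x hx (by
    intro k
    fin_cases k
    · exact hM0
    · exact hM0'
    · exact hFi0)
  have a1 := le_abs_self B1
  have a2 := le_abs_self (Real.log A)
  have a3 := abs_nonneg (Real.log A)
  have a4 := abs_nonneg B1
  fin_cases k
  · have hk' : lam f 1 M x ≤ B1 := hk
    have := le_max_right 0 (lam f 1 M' x)
    have := le_max_right (max 0 (lam f 1 M x)) (max 0 (lam f 1 M' x))
    linarith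
  · have hk' : lam f 1 M' x ≤ B1 := hk
    have := le_max_right 0 (lam f 1 M x)
    have := le_max_left (max 0 (lam f 1 M x)) (max 0 (lam f 1 M' x))
    linarith
  · have hk' : lam f 2 (F i) x ≤ B1 := hk
    have h2 : t ≤ lam f 2 (F i) x := min_le_left _ _
    have := le_max_left 0 (lam f 1 M x)
    have := le_max_left (max 0 (lam f 1 M x)) (max 0 (lam f 1 M' x))
    linarith

/-- few components are close -/
lemma sum_le_of_few {q : ℕ} (l : Fin q → ℝ) (B R : ℝ) (hB : 0 ≤ B) (hR : 0 ≤ R)
    (h3 : ∀ i j k, i ≠ j → i ≠ k → j ≠ k → min (l i) (min (l j) (l k)) ≤ B)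
    (h1 : ∀ i, l i ≤ R) (h2 : ∀ i j, i ≠ j → l i + l j ≤ R) :
    ∑ i, l i ≤ R + q * B := by
  classical
  set T : Finset (Fin q) := Finset.univ.filter fun i => B < l i with hT
  have hcard : T.card ≤ 2 := by
    by_contra hc
    push Not at hc
    obtain ⟨i, j, k, hi, hj, hk, hij, hik, hjk⟩ := Finset.two_lt_card_iff.1 hc
    have := h3 i j k hij hik hjk
    rw [hT, Finset.mem_filter] at hi hj hk
    have := lt_min hi.2 (lt_min hj.2 hk.2)
    linarith
  have hsplit : ∑ i, l i = ∑ i ∈ T, l i + ∑ i ∈ Tᶜ, l i := (Finset.sum_add_sum_compl T l).symm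
  have hrest : ∑ i ∈ Tᶜ, l i ≤ q * B := by
    have g1 : ∑ i ∈ Tᶜ, l i ≤ ∑ _i ∈ Tᶜ, B := by
      refine Finset.sum_le_sum fun i hi => ?_
      rw [Finset.mem_compl, hT, Finset.mem_filter] at hi
      push Not at hi
      exact hi (Finset.mem_univ i)
    have g2 : ((Tᶜ).card : ℝ) ≤ q := by
      have := Finset.card_le_univ Tᶜ
      rw [Fintype.card_fin] at this
      exact_mod_cast this
    rw [Finset.sum_const, nsmul_eq_mul] at g1
    exact g1.trans (mul_le_mul_of_nonneg_right g2 hB)
  have hTsum : ∑ i ∈ T, l i ≤ R := by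
    have : T.card = 0 ∨ T.card = 1 ∨ T.card = 2 := by omega
    rcases this with h | h | h
    · rw [Finset.card_eq_zero] at h
      rw [h, Finset.sum_empty]; exact hR
    · obtain ⟨i, hi⟩ := Finset.card_eq_one.1 h
      rw [hi, Finset.sum_singleton]; exact h1 i
    · obtain ⟨i, j, hij, hT2⟩ := Finset.card_eq_two.1 h
      rw [hT2, Finset.sum_pair hij]; exact h2 i j hij
  linarith

/-- the main inequality at one place `f` of weight `m` -/
theorem one_place {q : ℕ} (F : Fin q → MvPolynomial (Fin 3) K) (d : Fin q → ℕ)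
    (hF : ∀ i, (F i).IsHomogeneous (d i)) (hd : ∀ i, d i ≤ 3) (hS : SNC F)
    (f : AbsoluteValue K ℝ) (m : ℝ) (hm : 0 ≤ m) (h : (Fin 3 → K) → ℝ)
    (hh : ∀ x, 0 ≤ h x)
    (liou : ∀ (G : MvPolynomial (Fin 3) K) (e : ℕ), G.IsHomogeneous e → ∃ B : ℝ, 0 ≤ B ∧
      ∀ x : Fin 3 → K, x ≠ 0 → eval x G ≠ 0 → m * max 0 (lam f e G x) ≤ e * h x + B)
    (M : Fin q → Fin q → Fin 2 → MvPolynomial (Fin 3) K)
    (hM : ∀ i j k, (M i j k).IsHomogeneous 1)
    (hpair : ∀ i j, i ≠ j → 4 ≤ d i + d j → Apart f (d i) (d j) (F i) (F j) ∨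
      (d i = 2 ∧ d j = 2 ∧ M i j 0 * M i j 1 ≠ 0 ∧ ∃ a b : K,
        C a * F i + C b * F j = M i j 0 * M i j 1)) :
    ∃ B : ℝ, 0 ≤ B ∧ ∀ x : Fin 3 → K, x ≠ 0 → (∀ i, eval x (F i) ≠ 0) →
      (∀ i j, i ≠ j → ∀ k, M i j k ≠ 0 → eval x (M i j k) ≠ 0) →
      m * ∑ i, lam f (d i) (F i) x ≤ 3 * h x + B := by
  classical
  -- constants
  choose B1 hB10 hB1 using fun i => liou (F i) (d i) (hF i)
  have htrip : ∀ i j k, ∃ B : ℝ, i ≠ j → i ≠ k → j ≠ k → ∀ x : Fin 3 → K, x ≠ 0 →
      (∀ i, eval x (F i) ≠ 0) → min (lam f (d i) (F i) x) (min (lam f (d j) (F j) x)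
        (lam f (d k) (F k) x)) ≤ B := by
    intro i j k
    by_cases hd3 : i ≠ j ∧ i ≠ k ∧ j ≠ k
    · obtain ⟨B, hB⟩ := min_lam (by norm_num : 0 < 3)
        (![F i, F j, F k] : Fin 3 → MvPolynomial (Fin 3) K) ![d i, d j, d k] (by
          intro l
          fin_cases l
          · exact hF i
          · exact hF j
          · exact hF k) (by
          intro L _ _ x hx
          exact no_triple hF hS hd3.1 hd3.2.1 hd3.2.2 L x (hx 0) (hx 1) (hx 2)) f
      refine ⟨B, fun _ _ _ x hx hFx => ?_⟩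
      obtain ⟨l, hl⟩ := hB x hx (by
        intro l
        fin_cases l
        · exact hFx i
        · exact hFx j
        · exact hFx k)
      fin_cases l
      · exact (min_le_left _ _).trans hl
      · exact ((min_le_right _ _).trans (min_le_left _ _)).trans hl
      · exact ((min_le_right _ _).trans (min_le_right _ _)).trans hl
    · exact ⟨0, fun h1 h2 h3 => absurd ⟨h1, h2, h3⟩ hd3⟩
  choose B3 hB3 using htrip
  have hpr : ∀ i j, ∃ B : ℝ, i ≠ j → ∀ x : Fin 3 → K, x ≠ 0 → (∀ i, eval x (F i) ≠ 0) →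
      (∀ i j, i ≠ j → ∀ k, M i j k ≠ 0 → eval x (M i j k) ≠ 0) →
      m * (lam f (d i) (F i) x + lam f (d j) (F j) x) ≤ 3 * h x + B := by
    intro i j
    by_cases hij : i = j
    · exact ⟨0, fun h => absurd hij h⟩
    by_cases h4 : 4 ≤ d i + d j
    · -- reduce to a bound for the minimum
      have hmin : ∃ (B : ℝ) (r : ℕ), (∀ x : Fin 3 → K, x ≠ 0 → (∀ i, eval x (F i) ≠ 0) →
          (∀ i j, i ≠ j → ∀ k, M i j k ≠ 0 → eval x (M i j k) ≠ 0) →
          m * min (lam f (d i) (F i) x) (lam f (d j) (F j) x) ≤ r * h x + B) ∧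
          d i + r ≤ 3 ∧ d j + r ≤ 3 := by
        rcases hpair i j hij h4 with hap | ⟨hi2, hj2, hMM, a, b, hab⟩
        · obtain ⟨B, hB⟩ := hap.min_lam
          refine ⟨m * B, 0, fun x hx hFx _ => ?_, by have := hd i; omega, by have := hd j; omega⟩
          have := mul_le_mul_of_nonneg_left (hB x hx (hFx i) (hFx j)) hm
          simpa using this
        · have hFi2 : (F i).IsHomogeneous 2 := hi2 ▸ hF i
          obtain ⟨B, hB⟩ := pencil_lam hS hij hFi2 a b _ _ (hM i j 0) (hM i j 1) hMM hab f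
          obtain ⟨C0, hC00, hC0⟩ := liou (M i j 0) 1 (hM i j 0)
          obtain ⟨C1, hC10, hC1⟩ := liou (M i j 1) 1 (hM i j 1)
          refine ⟨m * B + C0 + C1, 1, fun x hx hFx hMx => ?_, by omega, by omega⟩
          have hM0 := hMx i j hij 0 (left_ne_zero_of_mul hMM)
          have hM1 := hMx i j hij 1 (right_ne_zero_of_mul hMM)
          have h5 := hB x hx (hFx i) (hFx j) hM0 hM1
          have h6 := mul_le_mul_of_nonneg_left h5 hm
          rw [hi2, hj2]
          have h7 := hC0 x hx hM0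
          have h8 := hC1 x hx hM1
          have h9 : m * max (max 0 (lam f 1 (M i j 0) x)) (max 0 (lam f 1 (M i j 1) x)) ≤
              (1 : ℕ) * h x + C0 + C1 := by
            rcases max_choice (max 0 (lam f 1 (M i j 0) x)) (max 0 (lam f 1 (M i j 1) x)) with
              g | g
            · rw [g]; linarith
            · rw [g]; linarith
          rw [mul_add] at h6
          linarith
      obtain ⟨B, r, hB, hir, hjr⟩ := hmin
      refine ⟨B + B1 i + B1 j, fun _ x hx hFx hMx => ?_⟩
      have h5 := hB x hx hFx hMx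
      have h6 : ∀ k, k = i ∨ k = j → m * lam f (d k) (F k) x ≤ d k * h x + B1 k := by
        intro k _
        have := hB1 k x hx (hFx k)
        have h7 := mul_le_mul_of_nonneg_left (le_max_right 0 (lam f (d k) (F k) x)) hm
        linarith
      have hi := h6 i (Or.inl rfl)
      have hj := h6 j (Or.inr rfl)
      have hx0 := hh x
      have hir' : ((d i : ℝ) + r) * h x ≤ 3 * h x := by
        apply mul_le_mul_of_nonneg_right _ hx0
        exact_mod_cast hir
      have hjr' : ((d j : ℝ) + r) * h x ≤ 3 * h x := by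
        apply mul_le_mul_of_nonneg_right _ hx0
        exact_mod_cast hjr
      have := hB10 i
      have := hB10 j
      rcases le_total (lam f (d i) (F i) x) (lam f (d j) (F j) x) with g | g
      · rw [min_eq_left g] at h5
        linarith [mul_add m (lam f (d i) (F i) x) (lam f (d j) (F j) x)]
      · rw [min_eq_right g] at h5
        linarith [mul_add m (lam f (d i) (F i) x) (lam f (d j) (F j) x)]
    · refine ⟨B1 i + B1 j, fun _ x hx hFx _ => ?_⟩
      have h6 : ∀ k, m * lam f (d k) (F k) x ≤ d k * h x + B1 k := by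
        intro k
        have := hB1 k x hx (hFx k)
        have h7 := mul_le_mul_of_nonneg_left (le_max_right 0 (lam f (d k) (F k) x)) hm
        linarith
      have hi := h6 i
      have hj := h6 j
      have h8 : ((d i : ℝ) + d j) * h x ≤ 3 * h x := by
        apply mul_le_mul_of_nonneg_right _ (hh x)
        have : d i + d j ≤ 3 := by omega
        exact_mod_cast this
      linarith [mul_add m (lam f (d i) (F i) x) (lam f (d j) (F j) x)]
  choose B2 hB2 using hpr
  set B : ℝ := ∑ i, B1 i + ∑ i, ∑ j, |B2 i j| with hBdef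
  set B' : ℝ := ∑ i, ∑ j, ∑ k, |B3 i j k| with hB'def
  have hBn : 0 ≤ B := add_nonneg (Finset.sum_nonneg fun i _ => hB10 i)
    (Finset.sum_nonneg fun _ _ => Finset.sum_nonneg fun _ _ => abs_nonneg _)
  have hB'n : 0 ≤ B' := Finset.sum_nonneg fun _ _ => Finset.sum_nonneg fun _ _ =>
    Finset.sum_nonneg fun _ _ => abs_nonneg _
  refine ⟨B + q * (m * B'), by positivity, fun x hx hFx hMx => ?_⟩
  rw [Finset.mul_sum]
  have hx0 := hh x
  refine (sum_le_of_few (fun i => m * lam f (d i) (F i) x) (m * B') (3 * h x + B)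
    (by positivity) (by positivity) ?_ ?_ ?_).trans (le_of_eq (by ring))
  · intro i j k hij hik hjk
    have h5 := hB3 i j k hij hik hjk x hx hFx
    have h6 : B3 i j k ≤ B' := by
      refine (le_abs_self _).trans ?_
      refine (Finset.single_le_sum (f := fun k => |B3 i j k|) (fun _ _ => abs_nonneg _)
        (Finset.mem_univ k)).trans ?_
      refine (Finset.single_le_sum (f := fun j => ∑ k, |B3 i j k|)
        (fun _ _ => Finset.sum_nonneg fun _ _ => abs_nonneg _) (Finset.mem_univ j)).trans ?_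
      exact Finset.single_le_sum (f := fun i => ∑ j, ∑ k, |B3 i j k|)
        (fun _ _ => Finset.sum_nonneg fun _ _ => Finset.sum_nonneg fun _ _ => abs_nonneg _)
        (Finset.mem_univ i)
    rw [← mul_min_of_nonneg _ _ hm, ← mul_min_of_nonneg _ _ hm]
    exact mul_le_mul_of_nonneg_left (h5.trans h6) hm
  · intro i
    have h5 := hB1 i x hx (hFx i)
    have h6 := mul_le_mul_of_nonneg_left (le_max_right 0 (lam f (d i) (F i) x)) hm
    have h7 : (d i : ℝ) * h x ≤ 3 * h x := by
      apply mul_le_mul_of_nonneg_right _ hx0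
      exact_mod_cast hd i
    have h8 : B1 i ≤ B := by
      have g1 := Finset.single_le_sum (f := B1) (fun i _ => hB10 i) (Finset.mem_univ i)
      have g2 : 0 ≤ ∑ i, ∑ j, |B2 i j| :=
        Finset.sum_nonneg fun _ _ => Finset.sum_nonneg fun _ _ => abs_nonneg _
      linarith
    show m * lam f (d i) (F i) x ≤ 3 * h x + B
    linarith
  · intro i j hij
    have h5 := hB2 i j hij x hx hFx hMx
    have h6 : B2 i j ≤ B := by
      have g0 := Finset.sum_nonneg (fun i (_ : i ∈ (Finset.univ : Finset (Fin q))) => hB10 i)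
      have g1 : |B2 i j| ≤ ∑ i, ∑ j, |B2 i j| := by
        refine (Finset.single_le_sum (f := fun j => |B2 i j|) (fun _ _ => abs_nonneg _)
          (Finset.mem_univ j)).trans ?_
        exact Finset.single_le_sum (f := fun i => ∑ j, |B2 i j|)
          (fun _ _ => Finset.sum_nonneg fun _ _ => abs_nonneg _) (Finset.mem_univ i)
      have := le_abs_self (B2 i j)
      linarith
    show m * lam f (d i) (F i) x + m * lam f (d j) (F j) x ≤ 3 * h x + B
    linarith [mul_add m (lam f (d i) (F i) x) (lam f (d j) (F j) x)]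

end Pool.Agent.W180.OP
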