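import Pool.Agent.W180.OP.Cover
import Pool.Agent.W180.OP.Main

set_option autoImplicit false

/-!
Several places.
-/

namespace Pool.Agent.W180.OP

open MvPolynomial Finset

section loc

variable {K : Type} [Field K]

/-- all crossing points are among the points of `P` -/
def Crossings {q : ℕ} (F : Fin q → MvPolynomial (Fin 3) K) (P : Finset (Fin 3 → K)) : Prop :=
  (∀ y ∈ P, y ≠ 0) ∧ ∀ i j, i ≠ j → ∀ (L : Type) [Field L] [Algebra K L] (x : Fin 3 → L), x ≠ 0 →
    aeval x (F i) = 0 → aeval x (F j) = 0 → ∃ y ∈ P, ∃ c : L, x = c • fun b => algebraMap K L (y b)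

lemma SNC.pair {q : ℕ} {F : Fin q → MvPolynomial (Fin 3) K} (hS : SNC F) {i j : Fin q}
    (hij : i ≠ j) {y : Fin 3 → K} (hy : y ≠ 0) (hi : eval y (F i) = 0) (hj : eval y (F j) = 0) :
    LinearIndependent K ![fun b => eval y (pderiv b (F i)), fun b => eval y (pderiv b (F j))] := by
  have h1 := hS K y hy
  have hi' : aeval y (F i) = 0 := by simpa [aeval_eq_eval] using hi
  have hj' : aeval y (F j) = 0 := by simpa [aeval_eq_eval] using hj
  have h3 := h1.comp (![⟨i, hi'⟩, ⟨j, hj'⟩] : Fin 2 → {j : Fin q // aeval y (F j) = 0}) (by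
    intro a b hab
    have hne : (⟨i, hi'⟩ : {j : Fin q // aeval y (F j) = 0}) ≠ ⟨j, hj'⟩ := fun h =>
      hij (congrArg Subtype.val h)
    fin_cases a <;> fin_cases b
    · rfl
    · exact absurd hab hne
    · exact absurd hab.symm hne
    · rfl)
  have e : (fun (j : {j : Fin q // aeval y (F j) = 0}) (i : Fin 3) => aeval y (pderiv i (F j))) ∘
      (![⟨i, hi'⟩, ⟨j, hj'⟩] : Fin 2 → {j : Fin q // aeval y (F j) = 0}) =
      ![fun b => eval y (pderiv b (F i)), fun b => eval y (pderiv b (F j))] := by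
    funext k
    fin_cases k <;> simp [aeval_eq_eval]
  rwa [e] at h3

theorem local_place {q : ℕ} (hq : 0 < q) (F : Fin q → MvPolynomial (Fin 3) K) (d : Fin q → ℕ)
    (hd : ∀ i, 1 ≤ d i) (hF : ∀ i, (F i).IsHomogeneous (d i)) (hS : SNC F)
    (P : Finset (Fin 3 → K)) (hP : Crossings F P) (f : AbsoluteValue K ℝ) :
    ∃ B : ℝ, 0 ≤ B ∧ ∀ x : Fin 3 → K, x ≠ 0 → (∀ i, eval x (F i) ≠ 0) →
      ∃ (i0 : Fin q) (t : ℝ), 0 ≤ t ∧ (∀ j, j ≠ i0 → lam f (d j) (F j) x ≤ t) ∧
        ∑ i, lam f (d i) (F i) x ≤ max 0 (lam f (d i0) (F i0) x) + t + B ∧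
        (t ≤ B ∨ ∃ y ∈ P, ∀ M : MvPolynomial (Fin 3) K, M.IsHomogeneous 1 → eval y M = 0 →
          eval x M ≠ 0 → t ≤ lam f 1 M x + B + |Real.log (cs f M)|) := by
  classical
  have hpair : ∀ i j : Fin q, ∃ B : ℝ, 0 ≤ B ∧ (i ≠ j → ∀ x : Fin 3 → K, x ≠ 0 →
      eval x (F i) ≠ 0 → eval x (F j) ≠ 0 →
      min (lam f (d i) (F i) x) (lam f (d j) (F j) x) ≤ B ∨ ∃ y ∈ P,
        ∀ M : MvPolynomial (Fin 3) K, M.IsHomogeneous 1 → eval y M = 0 → eval x M ≠ 0 →
          min (lam f (d i) (F i) x) (lam f (d j) (F j) x) ≤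
            lam f 1 M x + B + |Real.log (cs f M)|) := by
    intro i j
    by_cases hij : i = j
    · exact ⟨0, le_rfl, fun h => absurd hij h⟩
    · obtain ⟨B, hB0, hB⟩ := pair_point f (hd i) (hd j) (hF i) (hF j) P hP.1
        (fun L _ _ x => hP.2 i j hij L x)
        (fun y hy hi hj => hS.pair hij (hP.1 y hy) hi hj)
      exact ⟨B, hB0, fun _ => hB⟩
  choose B2 hB20 hB2 using hpair
  have htrip : ∀ i j k, ∃ B : ℝ, i ≠ j → i ≠ k → j ≠ k → ∀ x : Fin 3 → K, x ≠ 0 →
      (∀ i, eval x (F i) ≠ 0) → min (lam f (d i) (F i) x) (min (lam f (d j) (F j) x)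
        (lam f (d k) (F k) x)) ≤ B := by
    intro i j k
    by_cases hd3 : i ≠ j ∧ i ≠ k ∧ j ≠ k
    · obtain ⟨B, hB⟩ := min_lam (by norm_num : 0 < 3)
        (![F i, F j, F k] : Fin 3 → MvPolynomial (Fin 3) K) ![d i, d j, d k] (by
          intro l
          fin_cases l
          · exact hF i
          · exact hF j
          · exact hF k) (by
          intro L _ _ x hx
          exact no_triple hF hS hd3.1 hd3.2.1 hd3.2.2 L x (hx 0) (hx 1) (hx 2)) f
      refine ⟨B, fun _ _ _ x hx hFx => ?_⟩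
      obtain ⟨l, hl⟩ := hB x hx (by
        intro l
        fin_cases l
        · exact hFx i
        · exact hFx j
        · exact hFx k)
      fin_cases l
      · exact (min_le_left _ _).trans hl
      · exact ((min_le_right _ _).trans (min_le_left _ _)).trans hl
      · exact ((min_le_right _ _).trans (min_le_right _ _)).trans hl
    · exact ⟨0, fun h1 h2 h3 => absurd ⟨h1, h2, h3⟩ hd3⟩
  choose B3 hB3 using htrip
  set C2 : ℝ := ∑ i, ∑ j, B2 i j with hC2
  set C3 : ℝ := ∑ i, ∑ j, ∑ k, |B3 i j k| with hC3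
  have hC20 : 0 ≤ C2 := Finset.sum_nonneg fun i _ => Finset.sum_nonneg fun j _ => hB20 i j
  have hC30 : 0 ≤ C3 := Finset.sum_nonneg fun _ _ => Finset.sum_nonneg fun _ _ =>
    Finset.sum_nonneg fun _ _ => abs_nonneg _
  have hle2 : ∀ i j, B2 i j ≤ C2 := by
    intro i j
    refine (Finset.single_le_sum (f := fun j => B2 i j) (fun j _ => hB20 i j)
      (Finset.mem_univ j)).trans ?_
    exact Finset.single_le_sum (f := fun i => ∑ j, B2 i j)
      (fun i _ => Finset.sum_nonneg fun j _ => hB20 i j) (Finset.mem_univ i)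
  have hle3 : ∀ i j k, B3 i j k ≤ C3 := by
    intro i j k
    refine (le_abs_self _).trans ?_
    refine (Finset.single_le_sum (f := fun k => |B3 i j k|) (fun _ _ => abs_nonneg _)
      (Finset.mem_univ k)).trans ?_
    refine (Finset.single_le_sum (f := fun j => ∑ k, |B3 i j k|)
      (fun _ _ => Finset.sum_nonneg fun _ _ => abs_nonneg _) (Finset.mem_univ j)).trans ?_
    exact Finset.single_le_sum (f := fun i => ∑ j, ∑ k, |B3 i j k|)
      (fun _ _ => Finset.sum_nonneg fun _ _ => Finset.sum_nonneg fun _ _ => abs_nonneg _)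
      (Finset.mem_univ i)
  refine ⟨C2 + q * C3, by positivity, fun x hx hFx => ?_⟩
  set l : Fin q → ℝ := fun i => lam f (d i) (F i) x with hl
  obtain ⟨i0, -, hi0⟩ := Finset.exists_max_image Finset.univ l ⟨⟨0, hq⟩, Finset.mem_univ _⟩
  have hqC : 0 ≤ (q : ℝ) * C3 := by positivity
  by_cases hne : (Finset.univ.erase i0).Nonempty
  · obtain ⟨j0, hj0m, hj0⟩ := Finset.exists_max_image (Finset.univ.erase i0) l hne
    have hj0i : j0 ≠ i0 := Finset.ne_of_mem_erase hj0m
    refine ⟨i0, max 0 (l j0), le_max_left _ _, fun j hj => ?_, ?_, ?_⟩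
    · exact (hj0 j (Finset.mem_erase.2 ⟨hj, Finset.mem_univ _⟩)).trans (le_max_right _ _)
    · -- the sum
      have e1 : ∑ i, l i = l i0 + ∑ i ∈ Finset.univ.erase i0, l i :=
        (Finset.add_sum_erase _ _ (Finset.mem_univ i0)).symm
      have e2 : ∑ i ∈ Finset.univ.erase i0, l i =
          l j0 + ∑ i ∈ (Finset.univ.erase i0).erase j0, l i :=
        (Finset.add_sum_erase _ _ hj0m).symm
      have e3 : ∑ i ∈ (Finset.univ.erase i0).erase j0, l i ≤ q * C3 := by
        have g1 : ∑ i ∈ (Finset.univ.erase i0).erase j0, l i ≤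
            ∑ _i ∈ (Finset.univ.erase i0).erase j0, C3 := by
          refine Finset.sum_le_sum fun k hk => ?_
          have hk1 := Finset.ne_of_mem_erase hk
          have hk2 := Finset.mem_of_mem_erase hk
          have hk3 := Finset.ne_of_mem_erase hk2
          have g2 := hB3 i0 j0 k hj0i.symm hk3.symm hk1.symm x hx hFx
          have g3 : l k ≤ min (l i0) (min (l j0) (l k)) :=
            le_min (hi0 k (Finset.mem_univ _)) (le_min (hj0 k hk2) le_rfl)
          exact g3.trans (g2.trans (hle3 _ _ _))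
        rw [Finset.sum_const, nsmul_eq_mul] at g1
        refine g1.trans (mul_le_mul_of_nonneg_right ?_ hC30)
        have := Finset.card_le_univ ((Finset.univ.erase i0).erase j0)
        rw [Fintype.card_fin] at this
        exact_mod_cast this
      have e4 : l i0 ≤ max 0 (l i0) := le_max_right _ _
      have e5 : l j0 ≤ max 0 (l j0) := le_max_right _ _
      show ∑ i, l i ≤ max 0 (l i0) + max 0 (l j0) + (C2 + q * C3)
      rw [e1, e2]
      linarith
    · -- the second
      by_cases hneg : l j0 ≤ 0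
      · left
        rw [max_eq_left hneg]
        linarith
      · push Not at hneg
        rw [max_eq_right hneg.le]
        have hmin : min (l i0) (l j0) = l j0 := min_eq_right (hi0 j0 (Finset.mem_univ _))
        rcases hB2 i0 j0 hj0i.symm x hx (hFx i0) (hFx j0) with h | ⟨y, hy, h⟩
        · left
          have h' : min (l i0) (l j0) ≤ B2 i0 j0 := h
          rw [hmin] at h'
          have := hle2 i0 j0
          linarith
        · right
          refine ⟨y, hy, fun M hM hyM hxM => ?_⟩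
          have h' : min (l i0) (l j0) ≤ lam f 1 M x + B2 i0 j0 + |Real.log (cs f M)| :=
            h M hM hyM hxM
          rw [hmin] at h'
          have := hle2 i0 j0
          linarith
  · refine ⟨i0, 0, le_rfl, fun j hj => ?_, ?_, Or.inl (by linarith)⟩
    · exact absurd ⟨j, Finset.mem_erase.2 ⟨hj, Finset.mem_univ _⟩⟩ hne
    · rw [Finset.not_nonempty_iff_eq_empty] at hne
      have e1 : ∑ i, l i = l i0 + ∑ i ∈ Finset.univ.erase i0, l i :=
        (Finset.add_sum_erase _ _ (Finset.mem_univ i0)).symm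
      rw [hne, Finset.sum_empty] at e1
      have e4 : l i0 ≤ max 0 (l i0) := le_max_right _ _
      show ∑ i, l i ≤ max 0 (l i0) + 0 + (C2 + q * C3)
      linarith

/-- a line through two points -/
lemma exists_line (y y' : Fin 3 → K) : ∃ M : MvPolynomial (Fin 3) K, M.IsHomogeneous 1 ∧ M ≠ 0 ∧
    eval y M = 0 ∧ eval y' M = 0 := by
  classical
  -- a nonzero vector orthogonal to both
  obtain ⟨v, hv0, hv1, hv2⟩ : ∃ v : Fin 3 → K, v ≠ 0 ∧ ∑ b, v b * y b = 0 ∧ ∑ b, v b * y' b = 0 := by
    have hdet : (Matrix.of ![y, y', 0] : Matrix (Fin 3) (Fin 3) K).det = 0 :=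
      Matrix.det_eq_zero_of_row_eq_zero 2 fun j => by simp
    obtain ⟨v, hv0, hv⟩ := Matrix.exists_mulVec_eq_zero_iff.2 hdet
    refine ⟨v, hv0, ?_, ?_⟩
    · have := congrFun hv 0
      simpa [Matrix.mulVec, dotProduct, mul_comm] using this
    · have := congrFun hv 1
      simpa [Matrix.mulVec, dotProduct, mul_comm] using this
  have hev : ∀ z : Fin 3 → K, eval z (∑ b, C (v b) * X b : MvPolynomial (Fin 3) K) =
      ∑ b, v b * z b := by
    intro z
    simp
  refine ⟨∑ b, C (v b) * X b, ?_, ?_, by rw [hev, hv1], by rw [hev, hv2]⟩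
  · refine IsHomogeneous.sum _ _ _ fun b _ => ?_
    have := (isHomogeneous_C (Fin 3) (v b)).mul (isHomogeneous_X K b)
    simpa using this
  · intro h
    apply hv0
    funext a
    have h2 := hev (Pi.single a 1)
    rw [h, map_zero] at h2
    simpa [Pi.single_apply] using h2.symm

end loc

end Pool.Agent.W180.OP
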