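import Pool.Agent.W180.OP.Taylor

set_option autoImplicit false

/-!
The local analysis at a transversal rational crossing point; points close to two curves are close
to a crossing point.
-/

namespace Pool.Agent.W180.OP

open MvPolynomial Finset

variable {K : Type} [Field K]

lemma eval_smul_hom {R : Type*} [CommRing R] {n d : ℕ} (F : MvPolynomial (Fin n) R)
    (hF : F.IsHomogeneous d) (c : R) (x : Fin n → R) : eval (c • x) F = c ^ d * eval x F := by
  rw [eval_eq, eval_eq, Finset.mul_sum]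
  refine Finset.sum_congr rfl fun m hm => ?_
  have h1 : m.degree = d := by
    have := hF (mem_support_iff.1 hm)
    exact (DFunLike.congr_fun (Finsupp.degree_eq_weight_one (σ := Fin n) (R := ℕ)) m).trans this
  have h2 : ∑ i ∈ m.support, m i = d := by rw [← h1]; rfl
  simp only [Pi.smul_apply, smul_eq_mul, mul_pow, Finset.prod_mul_distrib]
  rw [Finset.prod_pow_eq_pow_sum, h2]
  ring

/-- a transversal crossing point -/
theorem point_bound (f : AbsoluteValue K ℝ) {F G : MvPolynomial (Fin 3) K} {d e : ℕ}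
    (hd : 1 ≤ d) (he : 1 ≤ e)
    (hF : F.IsHomogeneous d) (hG : G.IsHomogeneous e) (y : Fin 3 → K) (hy : y ≠ 0)
    (hFy : eval y F = 0) (hGy : eval y G = 0)
    (hli : LinearIndependent K ![fun b => eval y (pderiv b F), fun b => eval y (pderiv b G)]) :
    ∃ δ : ℝ, 0 < δ ∧ ∃ B : ℝ, 0 ≤ B ∧ ∀ x : Fin 3 → K, nrm f x = 1 →
      (∀ a b, f (x a * y b - x b * y a) ≤ δ) →
      ∃ t : K, nrm f (x - t • y) ≤ B * max (f (eval x F)) (f (eval x G)) := by
  classical
  obtain ⟨a, ha⟩ := exists_nrm f (by norm_num : 0 < 3) y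
  set Y := nrm f y with hY
  have hY0 : 0 < Y := nrm_pos f hy
  have hya : y a ≠ 0 := by
    intro h
    rw [h, map_zero] at ha
    exact hY0.ne ha
  set g : Fin 3 → K := fun b => eval y (pderiv b F) with hg
  set g' : Fin 3 → K := fun b => eval y (pderiv b G) with hg'
  have hgy : ∑ b, y b * g b = 0 := by
    have h := euler_aeval (L := K) hF y (by simpa [aeval_eq_eval] using hFy)
    simpa [hg, aeval_eq_eval] using h
  have hgy' : ∑ b, y b * g' b = 0 := by
    have h := euler_aeval (L := K) hG y (by simpa [aeval_eq_eval] using hGy)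
    simpa [hg', aeval_eq_eval] using h
  obtain ⟨A, hA0, hA⟩ := grad_bound f g g' y a hya hli hgy hgy'
  obtain ⟨B1, hB10, hB1⟩ := taylor f F 1 zero_le_one
  obtain ⟨B2, hB20, hB2⟩ := taylor f G 1 zero_le_one
  -- constants
  set κ : ℝ := min 1 (1 / (2 * Y)) with hκ
  have hκ0 : 0 < κ := lt_min one_pos (by positivity)
  have hκ1 : κ ≤ 1 := min_le_left _ _
  set D : ℕ := d + e with hD
  set c0 : ℝ := (κ ^ D)⁻¹ with hc0
  have hc00 : 0 < c0 := inv_pos.2 (pow_pos hκ0 _)
  set E : ℝ := A * c0 * (B1 + B2) with hE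
  have hE0 : 0 ≤ E := by positivity
  refine ⟨min (Y / 2) (Y / (2 * (E + 1))), by positivity, 2 * (A * c0), by positivity,
    fun x hx hxy => ?_⟩
  -- the coordinate `a` of `x`
  obtain ⟨m, hm⟩ := exists_nrm f (by norm_num : 0 < 3) x
  rw [hx] at hm
  set δ := min (Y / 2) (Y / (2 * (E + 1))) with hδ
  have hδ1 : δ ≤ Y / 2 := min_le_left _ _
  have hδ2 : δ ≤ Y / (2 * (E + 1)) := min_le_right _ _
  have h1 : Y ≤ δ + f (x a) * Y := by
    have e1 : x m * y a = (x m * y a - x a * y m) + x a * y m := by ring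
    have e2 : f (x m * y a) = Y := by rw [map_mul, hm, ha, one_mul]
    rw [← e2, e1]
    refine (f.add_le _ _).trans (add_le_add (hxy m a) ?_)
    rw [map_mul]
    refine mul_le_mul_of_nonneg_left ?_ (f.nonneg _)
    rw [e1] at e2
    rw [e2]
    exact le_nrm f y m
  have hxa : 1 / 2 ≤ f (x a) := by
    have : Y / 2 ≤ f (x a) * Y := by linarith
    by_contra hcon
    push Not at hcon
    nlinarith
  set t : K := x a / y a with ht
  have hft : f t = f (x a) / Y := by rw [ht, map_div₀, ha]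
  have ht1 : κ ≤ f t := by
    rw [hft]
    refine (min_le_right _ _).trans ?_
    rw [div_le_div_iff₀ (by positivity) hY0]
    nlinarith
  have ht0 : t ≠ 0 := by
    intro h
    rw [h, map_zero] at ht1
    linarith
  set z : Fin 3 → K := t • y with hz
  have hxa1 : f (x a) ≤ 1 := by rw [← hx]; exact le_nrm f x a
  have hzn : nrm f z ≤ 1 := by
    refine nrm_le zero_le_one fun j => ?_
    rw [hz, Pi.smul_apply, smul_eq_mul, map_mul, hft]
    have := le_nrm f y j
    rw [div_mul_eq_mul_div, div_le_one hY0]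
    calc f (x a) * f (y j) ≤ 1 * Y := mul_le_mul hxa1 this (f.nonneg _) zero_le_one
      _ = Y := one_mul _
  set u : Fin 3 → K := x - z with hu
  have hua : u a = 0 := by
    rw [hu, hz, Pi.sub_apply, Pi.smul_apply, smul_eq_mul, ht, div_mul_cancel₀ _ hya, sub_self]
  have hun : nrm f u ≤ δ / Y := by
    refine nrm_le (by positivity) fun b => ?_
    have e1 : u b = (x b * y a - x a * y b) / y a := by
      rw [hu, hz, Pi.sub_apply, Pi.smul_apply, smul_eq_mul, ht]
      field_simp
    rw [e1, map_div₀, ha]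
    exact div_le_div_of_nonneg_right (hxy b a) hY0.le
  have hu1 : nrm f u ≤ 1 := by
    refine hun.trans ?_
    rw [div_le_one hY0]
    linarith
  set ν := nrm f u with hν
  have hν0 : 0 ≤ ν := nrm_nonneg f u
  have hzu : z + u = x := by rw [hu]; simp
  set μ := max (f (eval x F)) (f (eval x G)) with hμ
  have key : ∀ (P : MvPolynomial (Fin 3) K) (r : ℕ) (B : ℝ), 1 ≤ r → r ≤ D → 0 ≤ B →
      P.IsHomogeneous r → eval y P = 0 → f (eval x P) ≤ μ →
      (∀ z u : Fin 3 → K, nrm f z ≤ 1 → nrm f u ≤ 1 →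
        f (eval (z + u) P - eval z P - ∑ b, u b * eval z (pderiv b P)) ≤ B * nrm f u ^ 2) →
      f (∑ b, u b * eval y (pderiv b P)) ≤ c0 * (μ + B * ν ^ 2) := by
    intro P r B hr hrD hB hP hPy hPx hT
    have e1 : eval z P = 0 := by rw [hz, eval_smul_hom P hP, hPy, mul_zero]
    have e2 : ∑ b, u b * eval z (pderiv b P) = t ^ (r - 1) * ∑ b, u b * eval y (pderiv b P) := by
      rw [Finset.mul_sum]
      refine Finset.sum_congr rfl fun b _ => ?_
      rw [hz, eval_smul_hom _ hP.pderiv]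
      ring
    have e3 := hT z u hzn hu1
    rw [hzu, e1, e2, sub_zero] at e3
    have e4 : f (t ^ (r - 1) * ∑ b, u b * eval y (pderiv b P)) ≤ μ + B * ν ^ 2 := by
      have e5 : t ^ (r - 1) * ∑ b, u b * eval y (pderiv b P) =
        eval x P - (eval x P - t ^ (r - 1) * ∑ b, u b * eval y (pderiv b P)) := by ring
      rw [e5]
      refine (AbsoluteValue.sub_le_add f _ _).trans (add_le_add hPx e3)
    rw [map_mul, map_pow] at e4
    have e6 : κ ^ D ≤ f t ^ (r - 1) := by
      calc κ ^ D ≤ κ ^ (r - 1) := pow_le_pow_of_le_one hκ0.le hκ1 (by omega)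
        _ ≤ f t ^ (r - 1) := pow_le_pow_left₀ hκ0.le ht1 _
    have e7 : κ ^ D * f (∑ b, u b * eval y (pderiv b P)) ≤ μ + B * ν ^ 2 :=
      (mul_le_mul_of_nonneg_right e6 (f.nonneg _)).trans e4
    rw [hc0, inv_mul_eq_div, le_div_iff₀ (pow_pos hκ0 _), mul_comm]
    exact e7
  have hk1 := key F d B1 hd (by omega) hB10 hF hFy (le_max_left _ _) hB1
  have hk2 := key G e B2 he (by omega) hB20 hG hGy (le_max_right _ _) hB2
  have hmax : max (f (∑ b, u b * g b)) (f (∑ b, u b * g' b)) ≤ c0 * (μ + (B1 + B2) * ν ^ 2) := by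
    refine max_le (hk1.trans ?_) (hk2.trans ?_)
    · refine mul_le_mul_of_nonneg_left ?_ hc00.le
      have := mul_nonneg hB20 (sq_nonneg ν)
      linarith [add_mul B1 B2 (ν ^ 2)]
    · refine mul_le_mul_of_nonneg_left ?_ hc00.le
      have := mul_nonneg hB10 (sq_nonneg ν)
      linarith [add_mul B1 B2 (ν ^ 2)]
  have hfin := (hA u hua).trans (mul_le_mul_of_nonneg_left hmax hA0)
  have hEν : E * ν ≤ 1 / 2 := by
    have h2 : ν ≤ 1 / (2 * (E + 1)) := by
      refine hun.trans ?_
      rw [div_le_iff₀ hY0]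
      refine hδ2.trans (le_of_eq ?_)
      field_simp
    calc E * ν ≤ E * (1 / (2 * (E + 1))) := mul_le_mul_of_nonneg_left h2 hE0
      _ = E / (2 * (E + 1)) := by ring
      _ ≤ 1 / 2 := by
        rw [div_le_div_iff₀ (by positivity) (by norm_num)]
        linarith
  refine ⟨t, ?_⟩
  have e8 : A * (c0 * (μ + (B1 + B2) * ν ^ 2)) = A * c0 * μ + (E * ν) * ν := by rw [hE]; ring
  rw [e8] at hfin
  have e9 : (E * ν) * ν ≤ 1 / 2 * ν := mul_le_mul_of_nonneg_right hEν hν0
  show ν ≤ 2 * (A * c0) * μ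
  have e10 : nrm f u = ν := rfl
  linarith

end Pool.Agent.W180.OP
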