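import Pool.Agent.W180.OP.Liou

set_option autoImplicit false

/-!
Normal crossings in the plane.
-/

namespace Pool.Agent.W180.OP

open MvPolynomial Finset

variable {K : Type} [Field K]

/-- normal crossings -/
def SNC {q : ℕ} (F : Fin q → MvPolynomial (Fin 3) K) : Prop :=
  ∀ (L : Type) [Field L] [Algebra K L] (x : Fin 3 → L), x ≠ 0 →
    LinearIndependent L (fun (j : {j : Fin q // aeval x (F j) = 0}) (i : Fin 3) =>
      aeval x (pderiv i (F j)))

lemma euler_aeval {L : Type} [Field L] [Algebra K L] {F : MvPolynomial (Fin 3) K} {d : ℕ}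
    (hF : F.IsHomogeneous d) (x : Fin 3 → L) (h0 : aeval x F = 0) :
    ∑ i, x i * aeval x (pderiv i F) = 0 := by
  have h := hF.sum_X_mul_pderiv
  have h2 := congrArg (aeval x) h
  simp only [map_sum, map_mul, aeval_X, map_nsmul, h0, smul_zero] at h2
  exact h2

/-- no triple points -/
lemma no_triple {q : ℕ} {F : Fin q → MvPolynomial (Fin 3) K} {d : Fin q → ℕ}
    (hF : ∀ i, (F i).IsHomogeneous (d i)) (hS : SNC F) {i j k : Fin q} (hij : i ≠ j) (hik : i ≠ k)
    (hjk : j ≠ k) (L : Type) [Field L] [Algebra K L] (x : Fin 3 → L) (hi : aeval x (F i) = 0)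
    (hj : aeval x (F j) = 0) (hk : aeval x (F k) = 0) : x = 0 := by
  by_contra hx
  have h1 := hS L x hx
  set e : Fin 3 → {j : Fin q // aeval x (F j) = 0} := ![⟨i, hi⟩, ⟨j, hj⟩, ⟨k, hk⟩] with he
  have hinj : Function.Injective e := by
    intro a b hab
    fin_cases a <;> fin_cases b <;> simp_all
  have h2 := h1.comp e hinj
  have h3 := h2.span_eq_top_of_card_eq_finrank (by simp)
  apply hx
  -- the linear functional `y ↦ x · y` vanishes
  set φ : (Fin 3 → L) →ₗ[L] L := ∑ l, x l • LinearMap.proj l with hφ
  have hφv : ∀ y : Fin 3 → L, φ y = ∑ l, x l * y l := fun y => by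
    simp [hφ, LinearMap.sum_apply]
  have hker : (⊤ : Submodule L (Fin 3 → L)) ≤ LinearMap.ker φ := by
    rw [← h3, Submodule.span_le]
    rintro _ ⟨a, rfl⟩
    rw [SetLike.mem_coe, LinearMap.mem_ker, hφv]
    exact euler_aeval (hF (e a).1) x (e a).2
  funext l
  have h4 := hker (Submodule.mem_top : (Pi.single l (1 : L)) ∈ ⊤)
  rw [LinearMap.mem_ker, hφv] at h4
  simpa [Pi.single_apply] using h4

/-- the vertex of a degenerate member of a pencil is not a crossing point -/
lemma no_vertex {q : ℕ} {F : Fin q → MvPolynomial (Fin 3) K} (hS : SNC F) {i j : Fin q}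
    (hij : i ≠ j) (a b : K) (M M' : MvPolynomial (Fin 3) K) (hMM : M * M' ≠ 0)
    (hab : C a * F i + C b * F j = M * M') (L : Type) [Field L] [Algebra K L] (x : Fin 3 → L)
    (hM : aeval x M = 0) (hM' : aeval x M' = 0) (hi : aeval x (F i) = 0) : x = 0 := by
  by_contra hx
  have h1 := hS L x hx
  have hgrad : ∀ l, algebraMap K L a * aeval x (pderiv l (F i)) +
      algebraMap K L b * aeval x (pderiv l (F j)) = 0 := by
    intro l
    have h2 := congrArg (fun P => aeval x (pderiv l P)) hab
    simp only [map_add, Derivation.leibniz, smul_eq_mul, map_mul, pderiv_C, mul_zero, add_zero,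
      hM, hM', zero_mul] at h2
    simpa [aeval_C] using h2
  by_cases hb : b = 0
  · have ha : a ≠ 0 := by
      rintro rfl
      rw [hb] at hab
      simp at hab
      rcases hab with h | h
      · exact hMM (by rw [h, zero_mul])
      · exact hMM (by rw [h, mul_zero])
    have h3 := h1.ne_zero ⟨i, hi⟩
    apply h3
    funext l
    have h4 := hgrad l
    rw [hb, map_zero, zero_mul, add_zero] at h4
    have h5 : algebraMap K L a ≠ 0 := by
      rwa [Ne, map_eq_zero_iff _ (algebraMap K L).injective]
    exact (mul_eq_zero.1 h4).resolve_left h5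
  · have hbL : algebraMap K L b ≠ 0 := by
      rwa [Ne, map_eq_zero_iff _ (algebraMap K L).injective]
    have hj : aeval x (F j) = 0 := by
      have h2 := congrArg (aeval x) hab
      simp only [map_add, map_mul, hi, hM, mul_zero, zero_add, zero_mul, aeval_C] at h2
      exact (mul_eq_zero.1 h2).resolve_left hbL
    have h3 := h1.comp (![⟨i, hi⟩, ⟨j, hj⟩] : Fin 2 → {j : Fin q // aeval x (F j) = 0}) (by
      intro a b hab
      fin_cases a <;> fin_cases b <;> simp_all)
    have h4 := (Fintype.linearIndependent_iff.1 h3) ![algebraMap K L a, algebraMap K L b] (by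
      funext l
      have := hgrad l
      simpa [Fin.sum_univ_two] using this) 1
    simp at h4
    exact hb h4

end Pool.Agent.W180.OP
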