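import Pool.Agent.W180.OP.Snc
import Mathlib.LinearAlgebra.CrossProduct

set_option autoImplicit false

/-!
Taylor expansion and the local analysis at a transversal rational crossing point.
-/

namespace Pool.Agent.W180.OP

open MvPolynomial Finset

variable {K : Type} [Field K]

lemma nrm_le {f : AbsoluteValue K ℝ} {n : ℕ} {x : Fin n → K} {B : ℝ} (hB : 0 ≤ B)
    (h : ∀ j, f (x j) ≤ B) : nrm f x ≤ B := by
  rcases Nat.eq_zero_or_pos n with rfl | hn
  · unfold nrm
    rw [Real.iSup_of_isEmpty]
    exact hB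
  · obtain ⟨j, hj⟩ := exists_nrm f hn x
    rw [← hj]
    exact h j

lemma bounded (f : AbsoluteValue K ℝ) {n : ℕ} (P : MvPolynomial (Fin n) K) (R : ℝ) (hR : 0 ≤ R) :
    ∃ B : ℝ, 0 ≤ B ∧ ∀ z : Fin n → K, nrm f z ≤ R → f (eval z P) ≤ B := by
  induction P using MvPolynomial.induction_on with
  | C a => exact ⟨f a, f.nonneg a, fun z _ => by rw [eval_C]⟩
  | add p q hp hq =>
    obtain ⟨B1, h1, hB1⟩ := hp
    obtain ⟨B2, h2, hB2⟩ := hq
    refine ⟨B1 + B2, by linarith, fun z hz => ?_⟩
    rw [map_add]
    exact (f.add_le _ _).trans (add_le_add (hB1 z hz) (hB2 z hz))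
  | mul_X p i hp =>
    obtain ⟨B, h, hB⟩ := hp
    refine ⟨B * R, by positivity, fun z hz => ?_⟩
    rw [map_mul, eval_X, map_mul]
    exact mul_le_mul (hB z hz) ((le_nrm f z i).trans hz) (f.nonneg _) h

/-- Taylor's formula of order two -/
lemma taylor (f : AbsoluteValue K ℝ) {n : ℕ} (P : MvPolynomial (Fin n) K) (R : ℝ) (hR : 0 ≤ R) :
    ∃ B : ℝ, 0 ≤ B ∧ ∀ z u : Fin n → K, nrm f z ≤ R → nrm f u ≤ R →
      f (eval (z + u) P - eval z P - ∑ b, u b * eval z (pderiv b P)) ≤ B * nrm f u ^ 2 := by
  induction P using MvPolynomial.induction_on with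
  | C a => exact ⟨0, le_rfl, fun z u _ _ => by simp⟩
  | add p q hp hq =>
    obtain ⟨B1, h1, hB1⟩ := hp
    obtain ⟨B2, h2, hB2⟩ := hq
    refine ⟨B1 + B2, by linarith, fun z u hz hu => ?_⟩
    have e : eval (z + u) (p + q) - eval z (p + q) - ∑ b, u b * eval z (pderiv b (p + q)) =
        (eval (z + u) p - eval z p - ∑ b, u b * eval z (pderiv b p)) +
        (eval (z + u) q - eval z q - ∑ b, u b * eval z (pderiv b q)) := by
      simp only [map_add, mul_add, Finset.sum_add_distrib]
      ring
    rw [e, add_mul]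
    exact (f.add_le _ _).trans (add_le_add (hB1 z u hz hu) (hB2 z u hz hu))
  | mul_X p i hp =>
    obtain ⟨B, h, hB⟩ := hp
    obtain ⟨D, hD0, hD⟩ : ∃ D : ℝ, 0 ≤ D ∧ ∀ z u : Fin n → K, nrm f z ≤ R → nrm f u ≤ R →
        f (eval (z + u) p - eval z p) ≤ D * nrm f u := by
      choose D hD0 hD using fun b => bounded f (pderiv b p) R hR
      refine ⟨B * R + ∑ b, D b, add_nonneg (by positivity) (Finset.sum_nonneg fun b _ => hD0 b),
        fun z u hz hu => ?_⟩
      have hu0 := nrm_nonneg f u
      have e : eval (z + u) p - eval z p =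
          (eval (z + u) p - eval z p - ∑ b, u b * eval z (pderiv b p)) +
          ∑ b, u b * eval z (pderiv b p) := by ring
      rw [e]
      refine (f.add_le _ _).trans ?_
      have g1 := hB z u hz hu
      have g2 : f (∑ b, u b * eval z (pderiv b p)) ≤ ∑ b, D b * nrm f u := by
        refine (f.sum_le _ _).trans (Finset.sum_le_sum fun b _ => ?_)
        rw [map_mul, mul_comm]
        exact mul_le_mul (hD b z hz) (le_nrm f u b) (f.nonneg _) (hD0 b)
      rw [← Finset.sum_mul] at g2
      have g3 : B * nrm f u ^ 2 ≤ B * R * nrm f u := by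
        rw [pow_two, ← mul_assoc]
        exact mul_le_mul_of_nonneg_right (mul_le_mul_of_nonneg_left hu h) hu0
      rw [add_mul]
      linarith
    refine ⟨R * B + D, by positivity, fun z u hz hu => ?_⟩
    have hu0 := nrm_nonneg f u
    have e : eval (z + u) (p * X i) - eval z (p * X i) - ∑ b, u b * eval z (pderiv b (p * X i)) =
        z i * (eval (z + u) p - eval z p - ∑ b, u b * eval z (pderiv b p)) +
        u i * (eval (z + u) p - eval z p) := by
      have e1 : ∑ b, u b * eval z (pderiv b (p * X i)) =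
          z i * ∑ b, u b * eval z (pderiv b p) + u i * eval z p := by
        rw [Finset.mul_sum]
        have e2 : ∀ b, u b * eval z (pderiv b (p * X i)) =
            z i * (u b * eval z (pderiv b p)) + (if b = i then u b * eval z p else 0) := by
          intro b
          rw [Derivation.leibniz, smul_eq_mul, smul_eq_mul, map_add, map_mul, map_mul, eval_X]
          by_cases hb : b = i
          · subst hb
            simp [pderiv_X_self]
            ring
          · rw [pderiv_X_of_ne (Ne.symm hb)]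
            simp [hb]
            ring
        simp only [e2, Finset.sum_add_distrib, Finset.sum_ite_eq', Finset.mem_univ, if_true]
      rw [e1]
      simp only [map_mul, eval_X, Pi.add_apply]
      ring
    rw [e]
    refine (f.add_le _ _).trans ?_
    rw [map_mul, map_mul]
    have g1 : f (z i) * f (eval (z + u) p - eval z p - ∑ b, u b * eval z (pderiv b p)) ≤
        R * (B * nrm f u ^ 2) :=
      mul_le_mul ((le_nrm f z i).trans hz) (hB z u hz hu) (f.nonneg _) hR
    have g2 : f (u i) * f (eval (z + u) p - eval z p) ≤ nrm f u * (D * nrm f u) :=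
      mul_le_mul (le_nrm f u i) (hD z u hz hu) (f.nonneg _) hu0
    calc _ ≤ R * (B * nrm f u ^ 2) + nrm f u * (D * nrm f u) := add_le_add g1 g2
      _ = _ := by ring

/-- two independent gradients orthogonal to `y`: the vectors with `u a = 0` -/
lemma grad_bound (f : AbsoluteValue K ℝ) (g g' y : Fin 3 → K) (a : Fin 3) (hya : y a ≠ 0)
    (hli : LinearIndependent K ![g, g']) (hg : ∑ b, y b * g b = 0) (hg' : ∑ b, y b * g' b = 0) :
    ∃ B : ℝ, 0 ≤ B ∧ ∀ u : Fin 3 → K, u a = 0 →
      nrm f u ≤ B * max (f (∑ b, u b * g b)) (f (∑ b, u b * g' b)) := by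
  classical
  set A : Matrix (Fin 3) (Fin 3) K := Matrix.of ![g, g', Pi.single a 1] with hA
  have hAv : ∀ u : Fin 3 → K, A.mulVec u = ![∑ b, u b * g b, ∑ b, u b * g' b, u a] := by
    intro u
    funext k
    fin_cases k
    · simp [hA, Matrix.mulVec, dotProduct, mul_comm]
    · simp [hA, Matrix.mulVec, dotProduct, mul_comm]
    · simp [hA, Matrix.mulVec, dotProduct, Pi.single_apply]
  have hdet : A.det ≠ 0 := by
    intro hdet
    obtain ⟨v, hv0, hv⟩ := Matrix.exists_mulVec_eq_zero_iff.2 hdet
    rw [hAv] at hv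
    have hv1 : ∑ b, v b * g b = 0 := congrFun hv 0
    have hv2 : ∑ b, v b * g' b = 0 := congrFun hv 1
    have hv3 : v a = 0 := congrFun hv 2
    -- the cross product
    have hw : crossProduct g g' ≠ 0 := crossProduct_ne_zero_iff_linearIndependent.2 hli
    set w := crossProduct g g' with hwdef
    have hpar : ∀ t : Fin 3 → K, ∑ b, t b * g b = 0 → ∑ b, t b * g' b = 0 →
        ∀ b c, t b * w c = t c * w b := by
      intro t h1 h2
      rw [Fin.sum_univ_three] at h1 h2
      have w0 : w 0 = g 1 * g' 2 - g 2 * g' 1 := by simp [hwdef, cross_apply]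
      have w1 : w 1 = g 2 * g' 0 - g 0 * g' 2 := by simp [hwdef, cross_apply]
      have w2 : w 2 = g 0 * g' 1 - g 1 * g' 0 := by simp [hwdef, cross_apply]
      have k01 : t 0 * w 1 = t 1 * w 0 := by
        rw [w0, w1]; linear_combination g 2 * h2 - g' 2 * h1
      have k02 : t 0 * w 2 = t 2 * w 0 := by
        rw [w0, w2]; linear_combination g' 1 * h1 - g 1 * h2
      have k12 : t 1 * w 2 = t 2 * w 1 := by
        rw [w1, w2]; linear_combination g 0 * h2 - g' 0 * h1
      intro b c
      fin_cases b <;> fin_cases c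
      · rfl
      · exact k01
      · exact k02
      · exact k01.symm
      · rfl
      · exact k12
      · exact k02.symm
      · exact k12.symm
      · rfl
    have hwa : w a ≠ 0 := by
      intro h
      apply hw
      funext c
      have := hpar y hg hg' a c
      rw [h, mul_zero] at this
      exact (mul_eq_zero.1 this).resolve_left hya
    apply hv0
    funext c
    have := hpar v hv1 hv2 a c
    rw [hv3, zero_mul] at this
    exact (mul_eq_zero.1 this.symm).resolve_right hwa
  -- invert
  have hinv : A⁻¹ * A = 1 := Matrix.nonsing_inv_mul _ (isUnit_iff_ne_zero.2 hdet)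
  refine ⟨∑ i, ∑ j, f (A⁻¹ i j), Finset.sum_nonneg fun _ _ => Finset.sum_nonneg fun _ _ =>
    f.nonneg _, fun u hu => ?_⟩
  set μ := max (f (∑ b, u b * g b)) (f (∑ b, u b * g' b)) with hμ
  have hμ0 : 0 ≤ μ := (f.nonneg _).trans (le_max_left _ _)
  refine nrm_le (mul_nonneg (Finset.sum_nonneg fun _ _ => Finset.sum_nonneg fun _ _ =>
    f.nonneg _) hμ0) fun i => ?_
  have h1 : u = A⁻¹.mulVec (A.mulVec u) := by
    rw [Matrix.mulVec_mulVec, hinv, Matrix.one_mulVec]
  have h2 : u i = ∑ j, A⁻¹ i j * (A.mulVec u) j := by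
    conv_lhs => rw [h1]
    rfl
  have h3 : ∀ j, f ((A.mulVec u) j) ≤ μ := by
    intro j
    rw [hAv]
    fin_cases j
    · exact le_max_left _ _
    · exact le_max_right _ _
    · show f (u a) ≤ μ
      rw [hu, map_zero]
      exact hμ0
  rw [h2]
  calc f (∑ j, A⁻¹ i j * (A.mulVec u) j) ≤ ∑ j, f (A⁻¹ i j) * μ := by
        refine (f.sum_le _ _).trans (Finset.sum_le_sum fun j _ => ?_)
        rw [map_mul]
        exact mul_le_mul_of_nonneg_left (h3 j) (f.nonneg _)
    _ = (∑ j, f (A⁻¹ i j)) * μ := by rw [Finset.sum_mul]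
    _ ≤ _ := by
        refine mul_le_mul_of_nonneg_right ?_ hμ0
        exact Finset.single_le_sum (f := fun i => ∑ j, f (A⁻¹ i j))
          (fun _ _ => Finset.sum_nonneg fun _ _ => f.nonneg _) (Finset.mem_univ i)

end Pool.Agent.W180.OP
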